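import Mathlib

/-!
# Pretentiousness and complete determinism of multiplicative functions

Every multiplicative `f : ℕ → 𝕌` (closed unit disc) with `∑_p (1 - |f(p)|)/p = ∞` has, for Cesàro
averages, only one Furstenberg system, the fixed point `0`; it has zero entropy, and `f` is not
pretentious.  So the implication from completely deterministic to pretentious fails, even for functions without
zeros.
-/

set_option autoImplicit false

namespace Pool.Agent.Results.MP_e30989_nt.NullModulus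

open MeasureTheory Filter Topology Finset

/-- The space `𝕌^ℤ` of two-sided sequences in the closed unit disc, with the product topology. -/
abbrev X : Type := ℤ → Metric.closedBall (0 : ℂ) 1

/-- The left shift on `𝕌^ℤ`. -/
def shift (x : X) : X := fun n => x (n + 1)

/-- The point of `𝕌^ℤ` with entries `0`. -/
def zeroPt : X := fun _ => ⟨0, by simp⟩

/-- Multiplicative functions with values in the closed unit disc (the value at `0` is not used). -/
def IsMultDisc (f : ℕ → ℂ) : Prop :=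
  (∀ n, ‖f n‖ ≤ 1) ∧ f 1 = 1 ∧
    ∀ m n : ℕ, 0 < m → 0 < n → Nat.Coprime m n → f (m * n) = f m * f n

/-- `f` is pretentious. -/
def Pretentious (f : ℕ → ℂ) : Prop :=
  ∃ (q : ℕ) (_ : NeZero q) (χ : DirichletCharacter ℂ q) (t : ℝ),
    Summable fun p : Nat.Primes =>
      (1 - (f p * (starRingEnd ℂ) (χ ((p : ℕ) : ZMod q)) *
        ((p : ℕ) : ℂ) ^ (-(t : ℂ) * Complex.I)).re) / ((p : ℕ) : ℝ)

/-- The point `x_f` of `𝕌^ℤ`: `x_f(n) = f(n)` for `n ≥ 1` and `0` for `n ≤ 0`. -/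
noncomputable def pt (f : ℕ → ℂ) (hf : ∀ n, ‖f n‖ ≤ 1) : X :=
  fun n => if 0 < n then ⟨f n.toNat, by simpa using hf n.toNat⟩ else ⟨0, by simp⟩

/-- `μ` is a Furstenberg system of `f` for Cesàro averages: a weak-* limit of the measures
`(1/N_k) ∑_{n=1}^{N_k} δ_{T^n x_f}` along some sequence `N_k → ∞`. -/
def IsFurstenberg (f : ℕ → ℂ) (hf : ∀ n, ‖f n‖ ≤ 1) (μ : Measure X) : Prop :=
  IsProbabilityMeasure μ ∧ ∃ N : ℕ → ℕ, Tendsto N atTop atTop ∧
    ∀ g : C(X, ℝ), Tendsto (fun k => (∑ n ∈ Finset.Icc 1 (N k), g (shift^[n] (pt f hf))) / (N k : ℝ))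
      atTop (𝓝 (∫ y, g y ∂μ))

/-- Shannon entropy of the distribution of the `n`-blocks `(ξ(y), ξ(Ty), …, ξ(T^{n-1}y))`. -/
noncomputable def blockEntropy (μ : Measure X) (r : ℕ) (ξ : X → Fin r) (n : ℕ) : ℝ :=
  ∑ w : Fin n → Fin r, Real.negMulLog (μ.real {y | ∀ i : Fin n, ξ (shift^[i] y) = w i})

/-- The Kolmogorov–Sinai entropy of the shift with respect to `μ`: supremum over all finite
measurable partitions (given by measurable maps `ξ` to `Fin r`). -/
noncomputable def ksEntropy (μ : Measure X) : EReal :=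
  ⨆ (r : ℕ) (ξ : X → Fin r) (_ : Measurable ξ),
    limsup (fun n : ℕ => ((blockEntropy μ r ξ n / n : ℝ) : EReal)) atTop

/-- `f` is completely deterministic for Cesàro averages. -/
def CompletelyDeterministic (f : ℕ → ℂ) (hf : ∀ n, ‖f n‖ ≤ 1) : Prop :=
  ∀ μ : Measure X, IsFurstenberg f hf μ → ksEntropy μ = 0

/-! ### Mean values -/

section Mean

variable (g : ℕ → ℝ)

/-- the local factor -/
noncomputable def loc (p n : ℕ) : ℝ := if p ∣ n ∧ ¬ p ^ 2 ∣ n then g p else 1

/-- product of local factors -/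
noncomputable def hP (P : Finset ℕ) (n : ℕ) : ℝ := ∏ p ∈ P, loc g p n

lemma loc_nonneg (hg0 : ∀ n, 0 ≤ g n) (p n : ℕ) : 0 ≤ loc g p n := by
  unfold loc; split_ifs
  · exact hg0 p
  · norm_num

lemma loc_le_one (hg1 : ∀ n, g n ≤ 1) (p n : ℕ) : loc g p n ≤ 1 := by
  unfold loc; split_ifs
  · exact hg1 p
  · norm_num

lemma hP_nonneg (hg0 : ∀ n, 0 ≤ g n) (P : Finset ℕ) (n : ℕ) : 0 ≤ hP g P n :=
  Finset.prod_nonneg fun p _ => loc_nonneg g hg0 p n

lemma hP_le_one (hg0 : ∀ n, 0 ≤ g n) (hg1 : ∀ n, g n ≤ 1) (P : Finset ℕ) (n : ℕ) :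
    hP g P n ≤ 1 :=
  Finset.prod_le_one (fun p _ => loc_nonneg g hg0 p n) fun p _ => loc_le_one g hg1 p n

lemma loc_mul (p q m : ℕ) (hp : p.Prime) (hq : q.Prime) (hpq : q ≠ p) :
    loc g q (p * m) = loc g q m := by
  have h1 : q ∣ p * m ↔ q ∣ m := by
    rw [hq.dvd_mul]
    constructor
    · rintro (h | h)
      · exact absurd ((Nat.prime_dvd_prime_iff_eq hq hp).1 h) hpq
      · exact h
    · exact Or.inr
  have hc : Nat.Coprime (q ^ 2) p :=
    Nat.Coprime.pow_left 2 ((Nat.coprime_primes hq hp).2 hpq)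
  have h2 : q ^ 2 ∣ p * m ↔ q ^ 2 ∣ m := hc.dvd_mul_left
  unfold loc
  simp only [h1, h2]

lemma hP_mul (P : Finset ℕ) (hP' : ∀ q ∈ P, q.Prime) (p m : ℕ) (hp : p.Prime) (hpP : p ∉ P) :
    hP g P (p * m) = hP g P m := by
  unfold hP
  refine Finset.prod_congr rfl fun q hq => ?_
  exact loc_mul g p q m hp (hP' q hq) (fun h => hpP (h ▸ hq))

lemma g_le_hP (hg0 : ∀ n, 0 ≤ g n) (hg1 : ∀ n, g n ≤ 1)
    (hmul : ∀ m n : ℕ, 0 < m → 0 < n → Nat.Coprime m n → g (m * n) = g m * g n)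
    (P : Finset ℕ) (hP' : ∀ q ∈ P, q.Prime) :
    ∀ n : ℕ, 0 < n → g n ≤ hP g P n := by
  classical
  induction P using Finset.induction_on with
  | empty => intro n _; simpa [hP] using hg1 n
  | insert p P hpP ih =>
    have hp : p.Prime := hP' p (Finset.mem_insert_self _ _)
    have hP'' : ∀ q ∈ P, q.Prime := fun q hq => hP' q (Finset.mem_insert_of_mem hq)
    intro n hn
    have hins : hP g (insert p P) n = loc g p n * hP g P n := by
      unfold hP; rw [Finset.prod_insert hpP]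
    rw [hins]
    by_cases h : p ∣ n ∧ ¬ p ^ 2 ∣ n
    · obtain ⟨⟨m, rfl⟩, h2⟩ := h
      have hm : 0 < m := Nat.pos_of_mul_pos_left hn |> fun _ => by
        rcases Nat.eq_zero_or_pos m with h0 | h0
        · subst h0; simp at hn
        · exact h0
      have hpm : ¬ p ∣ m := by
        rintro ⟨k, rfl⟩
        exact h2 ⟨k, by ring⟩
      have hcop : Nat.Coprime p m := (Nat.Prime.coprime_iff_not_dvd hp).2 hpm
      rw [hmul p m hp.pos hm hcop]
      have h1 : loc g p (p * m) = g p := by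
        unfold loc; rw [if_pos ⟨Dvd.intro _ rfl, h2⟩]
      rw [h1, hP_mul g P hP'' p m hp hpP]
      exact mul_le_mul_of_nonneg_left (ih hP'' m hm) (hg0 p)
    · have h1 : loc g p n = 1 := by unfold loc; rw [if_neg h]
      rw [h1, one_mul]
      exact ih hP'' n hn

/-- sums over multiples -/
lemma sum_mult (F : ℕ → ℝ) (p N : ℕ) (hp : 0 < p) :
    ∑ n ∈ (Finset.Icc 1 N).filter (fun n => p ∣ n), F n = ∑ m ∈ Finset.Icc 1 (N / p), F (p * m) := by
  symm
  refine Finset.sum_bij (fun m _ => p * m) ?_ ?_ ?_ ?_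
  · intro m hm
    rw [Finset.mem_Icc] at hm
    rw [Finset.mem_filter, Finset.mem_Icc]
    refine ⟨⟨Nat.mul_pos hp hm.1, ?_⟩, Dvd.intro _ rfl⟩
    calc p * m ≤ p * (N / p) := Nat.mul_le_mul_left p hm.2
      _ ≤ N := Nat.mul_div_le N p
  · intro a _ b _ hab
    exact Nat.eq_of_mul_eq_mul_left hp hab
  · intro n hn
    rw [Finset.mem_filter, Finset.mem_Icc] at hn
    obtain ⟨⟨h1, h2⟩, m, rfl⟩ := hn
    refine ⟨m, ?_, rfl⟩
    rw [Finset.mem_Icc]
    refine ⟨?_, ?_⟩
    · rcases Nat.eq_zero_or_pos m with h0 | h0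
      · subst h0; simp at h1
      · exact h0
    · rw [Nat.le_div_iff_mul_le hp, mul_comm]; exact h2
  · intro m _; rfl

/-- summatory function -/
noncomputable def S (P : Finset ℕ) (N : ℕ) : ℝ := ∑ n ∈ Finset.Icc 1 N, hP g P n

lemma S_insert (P : Finset ℕ) (hP' : ∀ q ∈ P, q.Prime) (p : ℕ) (hp : p.Prime) (hpP : p ∉ P)
    (N : ℕ) : S g (insert p P) N = S g P N - (1 - g p) * (S g P (N / p) - S g P (N / p / p)) := by
  classical
  have hins : ∀ n, hP g (insert p P) n = loc g p n * hP g P n := by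
    intro n; unfold hP; rw [Finset.prod_insert hpP]
  have h1 : ∀ n, hP g (insert p P) n = hP g P n - (1 - g p) *
      ((if p ∣ n then hP g P n else 0) - (if p ^ 2 ∣ n then hP g P n else 0)) := by
    intro n
    rw [hins]
    unfold loc
    by_cases ha : p ∣ n
    · by_cases hb : p ^ 2 ∣ n
      · simp [ha, hb]
      · simp [ha, hb]; ring
    · have hb : ¬ p ^ 2 ∣ n := fun h => ha ((Dvd.intro p (by ring)).trans h)
      simp [ha, hb]
  unfold S
  rw [Finset.sum_congr rfl fun n _ => h1 n, Finset.sum_sub_distrib, ← Finset.mul_sum,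
    Finset.sum_sub_distrib, ← Finset.sum_filter, ← Finset.sum_filter,
    sum_mult _ p N hp.pos, sum_mult _ (p ^ 2) N (pow_pos hp.pos 2)]
  have h2 : ∀ m, hP g P (p * m) = hP g P m := fun m => hP_mul g P hP' p m hp hpP
  have h3 : ∀ m, hP g P (p ^ 2 * m) = hP g P m := by
    intro m
    rw [pow_two, mul_assoc, h2, h2]
  have h4 : N / p ^ 2 = N / p / p := by rw [pow_two, Nat.div_div_eq_div_mul]
  simp only [h2, h3, h4]

/-- limit of averages along `N / p` -/
lemma tendsto_div (u : ℕ → ℝ) (A : ℝ) (h : Tendsto (fun N : ℕ => u N / (N : ℝ)) atTop (𝓝 A))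
    (p : ℕ) (hp : 0 < p) :
    Tendsto (fun N : ℕ => u (N / p) / (N : ℝ)) atTop (𝓝 (A / p)) := by
  have h1 : Tendsto (fun N : ℕ => N / p) atTop atTop := Nat.tendsto_div_const_atTop (by omega)
  have h2 : Tendsto (fun N : ℕ => u (N / p) / ((N / p : ℕ) : ℝ)) atTop (𝓝 A) := h.comp h1
  have h3 : Tendsto (fun N : ℕ => ((N / p : ℕ) : ℝ) / (N : ℝ)) atTop (𝓝 (1 / p)) := by
    have hx : Tendsto (fun x : ℝ => (⌊(1 / (p : ℝ)) * x⌋₊ : ℝ) / x) atTop (𝓝 (1 / p)) :=
      tendsto_nat_floor_mul_div_atTop (by positivity)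
    have hy := hx.comp tendsto_natCast_atTop_atTop
    refine hy.congr' ?_
    filter_upwards with N
    simp only [Function.comp]
    congr 2
    rw [one_div, mul_comm, ← div_eq_mul_inv, Nat.floor_div_natCast, Nat.floor_natCast]
  have h4 := h2.mul h3
  rw [mul_one_div] at h4
  refine h4.congr' ?_
  filter_upwards [eventually_ge_atTop p] with N hN
  have : ((N / p : ℕ) : ℝ) ≠ 0 := by
    have := Nat.div_pos hN hp
    positivity
  field_simp

lemma S_tendsto (P : Finset ℕ) (hP' : ∀ q ∈ P, q.Prime) :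
    Tendsto (fun N : ℕ => S g P N / (N : ℝ)) atTop
      (𝓝 (∏ p ∈ P, (1 - (1 - g p) * (1 / (p : ℝ) - 1 / (p : ℝ) / p)))) := by
  classical
  induction P using Finset.induction_on with
  | empty =>
    have : ∀ᶠ N : ℕ in atTop, (1 : ℝ) = S g ∅ N / (N : ℝ) := by
      filter_upwards [eventually_gt_atTop 0] with N hN
      have : (N : ℝ) ≠ 0 := by positivity
      simp [S, hP, this]
    simpa using (tendsto_const_nhds (x := (1 : ℝ))).congr' this
  | insert p P hpP ih =>
    have hp : p.Prime := hP' p (Finset.mem_insert_self _ _)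
    have hP'' : ∀ q ∈ P, q.Prime := fun q hq => hP' q (Finset.mem_insert_of_mem hq)
    have h0 := ih hP''
    set A := ∏ p ∈ P, (1 - (1 - g p) * (1 / (p : ℝ) - 1 / (p : ℝ) / p)) with hA
    have h1 := tendsto_div (S g P) A h0 p hp.pos
    have h2 := tendsto_div (fun N => S g P (N / p)) (A / p) h1 p hp.pos
    rw [Finset.prod_insert hpP, ← hA]
    have h3 := h0.sub ((h1.sub h2).const_mul (1 - g p))
    have h4 : A - (1 - g p) * (A / p - A / p / p) =
        (1 - (1 - g p) * (1 / (p : ℝ) - 1 / (p : ℝ) / p)) * A := by ring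
    rw [h4] at h3
    refine h3.congr fun N => ?_
    rw [S_insert g P hP'' p hp hpP N]
    ring

/-- Mean value zero. -/
lemma mean_zero (hg0 : ∀ n, 0 ≤ g n) (hg1 : ∀ n, g n ≤ 1)
    (hmul : ∀ m n : ℕ, 0 < m → 0 < n → Nat.Coprime m n → g (m * n) = g m * g n)
    (hdiv : ¬ Summable fun p : Nat.Primes => (1 - g p) / ((p : ℕ) : ℝ)) :
    Tendsto (fun N : ℕ => (∑ n ∈ Finset.Icc 1 N, g n) / (N : ℝ)) atTop (𝓝 0) := by
  classical
  rw [Metric.tendsto_atTop]
  intro ε hε
  -- choose a large finite set of primes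
  obtain ⟨c, hc⟩ : ∃ c : ℝ, Real.exp (-(c / 2)) < ε / 2 := by
    have h := Real.tendsto_exp_neg_atTop_nhds_zero
    have h' := (h.eventually (gt_mem_nhds (half_pos hε))).exists
    obtain ⟨x, hx⟩ := h'
    exact ⟨2 * x, by simpa using hx⟩
  obtain ⟨u, hu⟩ : ∃ u : Finset Nat.Primes, c < ∑ p ∈ u, (1 - g p) / ((p : ℕ) : ℝ) := by
    by_contra hcon
    push Not at hcon
    exact hdiv (summable_of_sum_le
      (fun p => div_nonneg (by linarith [hg1 p]) (Nat.cast_nonneg _)) hcon)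
  set P : Finset ℕ := u.map ⟨fun p : Nat.Primes => (p : ℕ), fun a b h => Subtype.ext h⟩ with hPdef
  have hP' : ∀ q ∈ P, q.Prime := by
    intro q hq
    rw [hPdef, Finset.mem_map] at hq
    obtain ⟨a, _, rfl⟩ := hq
    exact a.2
  have hlim := S_tendsto g P hP'
  have hprod : ∏ p ∈ P, (1 - (1 - g p) * (1 / (p : ℝ) - 1 / (p : ℝ) / p)) < ε / 2 := by
    refine lt_of_le_of_lt ?_ hc
    calc ∏ p ∈ P, (1 - (1 - g p) * (1 / (p : ℝ) - 1 / (p : ℝ) / p))
        ≤ ∏ p ∈ P, Real.exp (-((1 - g p) / (p : ℝ) / 2)) := by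
          refine Finset.prod_le_prod ?_ ?_
          · intro p hp
            have hp2 : (2 : ℝ) ≤ p := by exact_mod_cast (hP' p hp).two_le
            have h1 : 1 / (p : ℝ) - 1 / (p : ℝ) / p ≤ 1 := by
              have : 1 / (p : ℝ) ≤ 1 := by
                rw [div_le_one (by linarith)]; linarith
              have h' : 0 ≤ 1 / (p : ℝ) / p := by positivity
              linarith
            have h2 : 0 ≤ 1 / (p : ℝ) - 1 / (p : ℝ) / p := by
              rw [sub_nonneg, div_le_iff₀ (by linarith)]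
              have : 0 < 1 / (p : ℝ) := by positivity
              nlinarith
            have h3 : (1 - g p) * (1 / (p : ℝ) - 1 / (p : ℝ) / p) ≤ 1 :=
              mul_le_one₀ (by linarith [hg0 p]) h2 h1
            linarith
          · intro p hp
            have hp2 : (2 : ℝ) ≤ p := by exact_mod_cast (hP' p hp).two_le
            have h1 : 1 / (p : ℝ) / p ≤ 1 / (p : ℝ) / 2 := by
              apply div_le_div_of_nonneg_left (by positivity) (by norm_num) hp2
            have h2 : (1 - g p) / (p : ℝ) / 2 ≤ (1 - g p) * (1 / (p : ℝ) - 1 / (p : ℝ) / p) := by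
              have : (1 - g p) / (p : ℝ) / 2 = (1 - g p) * (1 / (p : ℝ) / 2) := by ring
              rw [this]
              apply mul_le_mul_of_nonneg_left _ (by linarith [hg1 p])
              have : 1 / (p : ℝ) = 1 / (p : ℝ) / 2 + 1 / (p : ℝ) / 2 := by ring
              linarith
            have h3 := Real.add_one_le_exp (-((1 - g p) / (p : ℝ) / 2))
            linarith
      _ = Real.exp (-((∑ p ∈ P, (1 - g p) / (p : ℝ)) / 2)) := by
          rw [← Real.exp_sum]
          congr 1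
          rw [Finset.sum_div, ← Finset.sum_neg_distrib]
      _ ≤ Real.exp (-(c / 2)) := by
          apply Real.exp_le_exp.2
          have : ∑ p ∈ P, (1 - g p) / (p : ℝ) = ∑ p ∈ u, (1 - g p) / ((p : ℕ) : ℝ) := by
            rw [hPdef, Finset.sum_map]; rfl
          rw [this]
          linarith
  have hev := hlim.eventually (gt_mem_nhds (lt_trans hprod (half_lt_self hε)))
  rw [eventually_atTop] at hev
  obtain ⟨N0, hN0⟩ := hev
  refine ⟨N0, fun N hN => ?_⟩
  have h1 := hN0 N hN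
  have h2 : (∑ n ∈ Finset.Icc 1 N, g n) ≤ S g P N := by
    unfold S
    refine Finset.sum_le_sum fun n hn => ?_
    exact g_le_hP g hg0 hg1 hmul P hP' n (Finset.mem_Icc.1 hn).1
  have h3 : 0 ≤ (∑ n ∈ Finset.Icc 1 N, g n) / (N : ℝ) :=
    div_nonneg (Finset.sum_nonneg fun n _ => hg0 n) (Nat.cast_nonneg _)
  rw [Real.dist_eq, sub_zero, abs_of_nonneg h3]
  exact lt_of_le_of_lt (div_le_div_of_nonneg_right h2 (Nat.cast_nonneg _)) h1

end Mean

/-! ### The dynamics -/

lemma shift_iterate (x : X) (n : ℕ) (m : ℤ) : (shift^[n] x) m = x (m + n) := by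
  induction n generalizing m with
  | zero => simp
  | succ n ih =>
    rw [Function.iterate_succ', Function.comp]
    show (shift^[n] x) (m + 1) = _
    rw [ih]
    congr 1
    push_cast
    ring

lemma norm_pt (f : ℕ → ℂ) (hf : ∀ n, ‖f n‖ ≤ 1) (m : ℤ) :
    ‖((pt f hf m : Metric.closedBall (0 : ℂ) 1) : ℂ)‖ = if 0 < m then ‖f m.toNat‖ else 0 := by
  unfold pt
  split_ifs <;> simp

/-- shifted averages of the modulus -/
lemma shifted_avg (a : ℕ → ℝ) (ha0 : ∀ n, 0 ≤ a n) (ha1 : ∀ n, a n ≤ 1)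
    (h : Tendsto (fun N : ℕ => (∑ n ∈ Finset.Icc 1 N, a n) / (N : ℝ)) atTop (𝓝 0)) (j : ℤ) :
    Tendsto (fun N : ℕ => (∑ n ∈ Finset.Icc 1 N,
      (if 0 < j + (n : ℤ) then a (j + (n : ℤ)).toNat else 0)) / (N : ℝ)) atTop (𝓝 0) := by
  have hup : ∀ N : ℕ, ∑ n ∈ Finset.Icc 1 N,
      (if 0 < j + (n : ℤ) then a (j + (n : ℤ)).toNat else 0) ≤
        (∑ n ∈ Finset.Icc 1 N, a n) + j.natAbs := by
    intro N
    classical
    have h1 : ∑ n ∈ Finset.Icc 1 N, (if 0 < j + (n : ℤ) then a (j + (n : ℤ)).toNat else 0) =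
        ∑ n ∈ (Finset.Icc 1 N).filter (fun n : ℕ => 0 < j + (n : ℤ)), a (j + (n : ℤ)).toNat := by
      rw [Finset.sum_filter]
    have h2 : ∑ n ∈ (Finset.Icc 1 N).filter (fun n : ℕ => 0 < j + (n : ℤ)), a (j + (n : ℤ)).toNat =
        ∑ m ∈ ((Finset.Icc 1 N).filter (fun n : ℕ => 0 < j + (n : ℤ))).image
          (fun n : ℕ => (j + (n : ℤ)).toNat), a m := by
      rw [Finset.sum_image]
      intro x hx y hy hxy
      simp only [Finset.coe_filter, Set.mem_ofPred_eq] at hx hy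
      have hx' := hx.2
      have hy' := hy.2
      simp only at hxy
      omega
    rw [h1, h2]
    have h3 : ((Finset.Icc 1 N).filter (fun n : ℕ => 0 < j + (n : ℤ))).image
          (fun n : ℕ => (j + (n : ℤ)).toNat) ⊆ Finset.Icc 1 N ∪ Finset.Ioc N (N + j.natAbs) := by
      intro m hm
      rw [Finset.mem_image] at hm
      obtain ⟨n, hn, rfl⟩ := hm
      rw [Finset.mem_filter, Finset.mem_Icc] at hn
      rw [Finset.mem_union, Finset.mem_Icc, Finset.mem_Ioc]
      have := hn.2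
      have := hn.1
      omega
    calc ∑ m ∈ ((Finset.Icc 1 N).filter (fun n : ℕ => 0 < j + (n : ℤ))).image
          (fun n : ℕ => (j + (n : ℤ)).toNat), a m
        ≤ ∑ m ∈ Finset.Icc 1 N ∪ Finset.Ioc N (N + j.natAbs), a m :=
          Finset.sum_le_sum_of_subset_of_nonneg h3 fun m _ _ => ha0 m
      _ ≤ (∑ m ∈ Finset.Icc 1 N, a m) + ∑ m ∈ Finset.Ioc N (N + j.natAbs), a m := by
          rw [← Finset.sum_union_inter]
          linarith [Finset.sum_nonneg (s := Finset.Icc 1 N ∩ Finset.Ioc N (N + j.natAbs))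
            (f := a) fun m _ => ha0 m]
      _ ≤ (∑ m ∈ Finset.Icc 1 N, a m) + j.natAbs := by
          have : ∑ m ∈ Finset.Ioc N (N + j.natAbs), a m ≤ j.natAbs := by
            calc ∑ m ∈ Finset.Ioc N (N + j.natAbs), a m
                ≤ ∑ m ∈ Finset.Ioc N (N + j.natAbs), (1 : ℝ) := Finset.sum_le_sum fun m _ => ha1 m
              _ = j.natAbs := by simp
          linarith
  have hlow : ∀ N : ℕ, 0 ≤ (∑ n ∈ Finset.Icc 1 N,
      (if 0 < j + (n : ℤ) then a (j + (n : ℤ)).toNat else 0)) / (N : ℝ) := by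
    intro N
    refine div_nonneg (Finset.sum_nonneg fun n _ => ?_) (Nat.cast_nonneg _)
    split_ifs
    · exact ha0 _
    · exact le_rfl
  have hlim : Tendsto (fun N : ℕ => (∑ n ∈ Finset.Icc 1 N, a n) / (N : ℝ) +
      (j.natAbs : ℝ) / (N : ℝ)) atTop (𝓝 0) := by
    have := h.add (tendsto_const_div_atTop_nhds_zero_nat (j.natAbs : ℝ))
    simpa using this
  refine squeeze_zero hlow (fun N => ?_) hlim
  rw [← add_div]
  exact div_le_div_of_nonneg_right (hup N) (Nat.cast_nonneg _)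

/-- The averages of a continuous function along the orbit tend to its value at `0`. -/
lemma avg_test (f : ℕ → ℂ) (hf : ∀ n, ‖f n‖ ≤ 1)
    (h : Tendsto (fun N : ℕ => (∑ n ∈ Finset.Icc 1 N, ‖f n‖) / (N : ℝ)) atTop (𝓝 0))
    (g : C(X, ℝ)) :
    Tendsto (fun N : ℕ => (∑ n ∈ Finset.Icc 1 N, g (shift^[n] (pt f hf))) / (N : ℝ)) atTop
      (𝓝 (g zeroPt)) := by
  classical
  obtain ⟨B, hB⟩ : ∃ B : ℝ, ∀ y, |g y - g zeroPt| ≤ B := by
    refine ⟨‖g‖ + ‖g‖, fun y => ?_⟩
    calc |g y - g zeroPt| ≤ |g y| + |g zeroPt| := abs_sub _ _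
      _ ≤ ‖g‖ + ‖g‖ := add_le_add (g.norm_coe_le_norm y) (g.norm_coe_le_norm zeroPt)
  have hB0 : 0 ≤ B := (abs_nonneg _).trans (hB zeroPt)
  -- it is enough to bound the averages of the differences
  have key : ∀ ε : ℝ, 0 < ε → ∃ (J : Finset ℤ) (δ : ℝ), 0 < δ ∧
      ∀ y : X, |g y - g zeroPt| ≤ ε + ∑ j ∈ J, B / δ * ‖((y j : Metric.closedBall (0 : ℂ) 1) : ℂ)‖ := by
    intro ε hε
    have hnhds : g ⁻¹' (Metric.ball (g zeroPt) ε) ∈ 𝓝 zeroPt :=
      g.continuous.continuousAt.preimage_mem_nhds (Metric.ball_mem_nhds _ hε)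
    rw [nhds_pi, Filter.mem_pi] at hnhds
    obtain ⟨I, hI, t, ht, hsub⟩ := hnhds
    have hδ : ∀ i : ℤ, ∃ δ : ℝ, 0 < δ ∧ ∀ z : Metric.closedBall (0 : ℂ) 1, ‖(z : ℂ)‖ < δ → z ∈ t i := by
      intro i
      have := ht i
      rw [Metric.mem_nhds_iff] at this
      obtain ⟨δ, hδ, hb⟩ := this
      refine ⟨δ, hδ, fun z hz => hb ?_⟩
      rw [Metric.mem_ball, Subtype.dist_eq]
      simpa [zeroPt] using hz
    choose d hd0 hd using hδ
    set J := hI.toFinset with hJ
    obtain ⟨δ, hδ0, hδ⟩ : ∃ δ : ℝ, 0 < δ ∧ ∀ i ∈ J, δ ≤ d i := by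
      rcases J.eq_empty_or_nonempty with hJe | hJn
      · exact ⟨1, one_pos, by simp [hJe]⟩
      · obtain ⟨i, hi, hmin⟩ := J.exists_min_image d hJn
        exact ⟨d i, hd0 i, fun k hk => hmin k hk⟩
    refine ⟨J, δ, hδ0, fun y => ?_⟩
    have hterm : ∀ j, 0 ≤ B / δ * ‖((y j : Metric.closedBall (0 : ℂ) 1) : ℂ)‖ := fun j => by positivity
    by_cases hy : ∀ j ∈ J, ‖((y j : Metric.closedBall (0 : ℂ) 1) : ℂ)‖ < δ
    · have hmem : y ∈ g ⁻¹' (Metric.ball (g zeroPt) ε) := by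
        apply hsub
        intro i hi
        have hiJ : i ∈ J := by rw [hJ]; exact hI.mem_toFinset.2 hi
        exact hd i _ (lt_of_lt_of_le (hy i hiJ) (hδ i hiJ))
      have : |g y - g zeroPt| < ε := by
        simpa [Real.dist_eq] using hmem
      have h0 : 0 ≤ ∑ j ∈ J, B / δ * ‖((y j : Metric.closedBall (0 : ℂ) 1) : ℂ)‖ :=
        Finset.sum_nonneg fun j _ => hterm j
      linarith
    · push Not at hy
      obtain ⟨i, hi, hyi⟩ := hy
      have h1 : B ≤ B / δ * ‖((y i : Metric.closedBall (0 : ℂ) 1) : ℂ)‖ := by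
        rw [div_mul_eq_mul_div, le_div_iff₀ hδ0]
        exact mul_le_mul_of_nonneg_left hyi hB0
      have h2 := Finset.single_le_sum (f := fun j => B / δ * ‖((y j : Metric.closedBall (0 : ℂ) 1) : ℂ)‖)
        (fun j _ => hterm j) hi
      have h3 := hB y
      linarith
  rw [Metric.tendsto_atTop]
  intro ε hε
  obtain ⟨J, δ, hδ, hJ⟩ := key (ε / 2) (half_pos hε)
  have hlim : Tendsto (fun N : ℕ => ∑ j ∈ J, B / δ * ((∑ n ∈ Finset.Icc 1 N,
      (if 0 < j + (n : ℤ) then ‖f (j + (n : ℤ)).toNat‖ else 0)) / (N : ℝ))) atTop (𝓝 0) := by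
    have h0 : Tendsto (fun N : ℕ => ∑ j ∈ J, B / δ * ((∑ n ∈ Finset.Icc 1 N,
        (if 0 < j + (n : ℤ) then ‖f (j + (n : ℤ)).toNat‖ else 0)) / (N : ℝ))) atTop
        (𝓝 (∑ j ∈ J, B / δ * 0)) := by
      refine tendsto_finsetSum _ fun j _ => ?_
      exact (shifted_avg (fun n => ‖f n‖) (fun n => norm_nonneg _) hf h j).const_mul _
    simpa using h0
  have hev := hlim.eventually (gt_mem_nhds (half_pos hε))
  rw [eventually_atTop] at hev
  obtain ⟨N0, hN0⟩ := hev
  refine ⟨N0 + 1, fun N hN => ?_⟩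
  have hNpos : (0 : ℝ) < N := by
    have : 0 < N := by omega
    exact_mod_cast this
  have h1 := hN0 N (by omega)
  have h2 : (∑ n ∈ Finset.Icc 1 N, g (shift^[n] (pt f hf))) / (N : ℝ) - g zeroPt =
      (∑ n ∈ Finset.Icc 1 N, (g (shift^[n] (pt f hf)) - g zeroPt)) / (N : ℝ) := by
    rw [Finset.sum_sub_distrib]
    simp
    field_simp
  rw [Real.dist_eq, h2, abs_div, abs_of_pos hNpos]
  have h3 : |∑ n ∈ Finset.Icc 1 N, (g (shift^[n] (pt f hf)) - g zeroPt)| ≤
      ∑ n ∈ Finset.Icc 1 N, (ε / 2 + ∑ j ∈ J, B / δ *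
        (if 0 < j + (n : ℤ) then ‖f (j + (n : ℤ)).toNat‖ else 0)) := by
    refine (Finset.abs_sum_le_sum_abs _ _).trans (Finset.sum_le_sum fun n _ => ?_)
    have := hJ (shift^[n] (pt f hf))
    simp only [shift_iterate, norm_pt] at this
    exact this
  have h4 : ∑ n ∈ Finset.Icc 1 N, (ε / 2 + ∑ j ∈ J, B / δ *
        (if 0 < j + (n : ℤ) then ‖f (j + (n : ℤ)).toNat‖ else 0)) =
      N * (ε / 2) + ∑ j ∈ J, B / δ * (∑ n ∈ Finset.Icc 1 N,
        (if 0 < j + (n : ℤ) then ‖f (j + (n : ℤ)).toNat‖ else 0)) := by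
    rw [Finset.sum_add_distrib, Finset.sum_comm]
    simp [Finset.mul_sum]
  rw [h4] at h3
  have h5 : |∑ n ∈ Finset.Icc 1 N, (g (shift^[n] (pt f hf)) - g zeroPt)| / (N : ℝ) ≤
      ε / 2 + ∑ j ∈ J, B / δ * ((∑ n ∈ Finset.Icc 1 N,
      (if 0 < j + (n : ℤ) then ‖f (j + (n : ℤ)).toNat‖ else 0)) / (N : ℝ)) := by
    rw [div_le_iff₀ hNpos]
    refine h3.trans (le_of_eq ?_)
    rw [add_mul, Finset.sum_mul]
    congr 1
    · ring
    · refine Finset.sum_congr rfl fun j _ => ?_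
      field_simp
  linarith

instance : T2Space X := inferInstance

lemma eq_dirac (f : ℕ → ℂ) (hf : ∀ n, ‖f n‖ ≤ 1)
    (h : Tendsto (fun N : ℕ => (∑ n ∈ Finset.Icc 1 N, ‖f n‖) / (N : ℝ)) atTop (𝓝 0))
    (μ : Measure X) (hμ : IsFurstenberg f hf μ) : μ = Measure.dirac zeroPt := by
  obtain ⟨hprob, N, hN, hlim⟩ := hμ
  have := hprob
  refine ext_of_forall_integral_eq_of_IsFiniteMeasure fun g => ?_
  have h1 := hlim g.toContinuousMap
  have h2 := (avg_test f hf h g.toContinuousMap).comp hN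
  have h3 := tendsto_nhds_unique h1 h2
  rw [integral_dirac]
  simpa using h3

lemma measurable_shift : Measurable shift :=
  measurable_pi_lambda _ fun n => measurable_pi_apply (n + 1)

lemma blockEntropy_dirac (x : X) (r : ℕ) (ξ : X → Fin r) (hξ : Measurable ξ) (n : ℕ) :
    blockEntropy (Measure.dirac x) r ξ n = 0 := by
  unfold blockEntropy
  refine Finset.sum_eq_zero fun w _ => ?_
  have hm : MeasurableSet {y : X | ∀ i : Fin n, ξ (shift^[i] y) = w i} := by
    have : {y : X | ∀ i : Fin n, ξ (shift^[i] y) = w i} =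
        ⋂ i : Fin n, (fun y => ξ (shift^[i] y)) ⁻¹' {w i} := by
      ext y; simp
    rw [this]
    refine MeasurableSet.iInter fun i => ?_
    exact (hξ.comp (measurable_shift.iterate i)) (measurableSet_singleton _)
  rw [measureReal_def, Measure.dirac_apply' _ hm]
  by_cases hx : x ∈ {y : X | ∀ i : Fin n, ξ (shift^[i] y) = w i}
  · simp [Set.indicator_of_mem hx]
  · simp [Set.indicator_of_notMem hx]

lemma ksEntropy_dirac (x : X) : ksEntropy (Measure.dirac x) = 0 := by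
  unfold ksEntropy
  apply le_antisymm
  · refine iSup_le fun r => iSup_le fun ξ => iSup_le fun hξ => ?_
    simp only [blockEntropy_dirac x r ξ hξ]
    simp
  · refine le_iSup_of_le 1 (le_iSup_of_le (fun _ => 0) (le_iSup_of_le measurable_const ?_))
    simp only [blockEntropy_dirac x 1 (fun _ => 0) measurable_const]
    simp

lemma not_pretentious (f : ℕ → ℂ) (hf : ∀ n, ‖f n‖ ≤ 1)
    (hdiv : ¬ Summable fun p : Nat.Primes => (1 - ‖f p‖) / ((p : ℕ) : ℝ)) :
    ¬ Pretentious f := by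
  rintro ⟨q, hq, χ, t, hs⟩
  apply hdiv
  refine Summable.of_nonneg_of_le (fun p => ?_) (fun p => ?_) hs
  · exact div_nonneg (by linarith [hf p]) (Nat.cast_nonneg _)
  · refine div_le_div_of_nonneg_right ?_ (Nat.cast_nonneg _)
    have h1 : (f p * (starRingEnd ℂ) (χ ((p : ℕ) : ZMod q)) *
        ((p : ℕ) : ℂ) ^ (-(t : ℂ) * Complex.I)).re ≤ ‖f p‖ := by
      refine (Complex.re_le_norm _).trans ?_
      rw [norm_mul, norm_mul]
      have h2 : ‖(starRingEnd ℂ) (χ ((p : ℕ) : ZMod q))‖ ≤ 1 := by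
        rw [RCLike.norm_conj]
        exact χ.norm_le_one _
      have h3 : ‖((p : ℕ) : ℂ) ^ (-(t : ℂ) * Complex.I)‖ = 1 := by
        rw [Complex.norm_natCast_cpow_of_pos p.2.pos]
        simp
      rw [h3, mul_one]
      exact mul_le_of_le_one_right (norm_nonneg _) h2
    linarith

/-- (1) Every multiplicative `f : ℕ → 𝕌` with `∑_p (1 - |f(p)|)/p = ∞` is completely deterministic
for Cesàro averages (its only Furstenberg system is the fixed point `0`) and not pretentious.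
(2) There is such a function, even one without zeros. -/
theorem result :
    (∀ (f : ℕ → ℂ) (hf : IsMultDisc f),
      (¬ Summable fun p : Nat.Primes => (1 - ‖f p‖) / ((p : ℕ) : ℝ)) →
        ¬ Pretentious f ∧ CompletelyDeterministic f hf.1 ∧
        ∀ μ : Measure X, IsFurstenberg f hf.1 μ ↔ μ = Measure.dirac zeroPt) ∧
    ∃ (f : ℕ → ℂ) (hf : IsMultDisc f), (∀ n, f n ≠ 0) ∧ ¬ Pretentious f ∧
      CompletelyDeterministic f hf.1 := by
  have main : ∀ (f : ℕ → ℂ) (hf : IsMultDisc f),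
      (¬ Summable fun p : Nat.Primes => (1 - ‖f p‖) / ((p : ℕ) : ℝ)) →
        ¬ Pretentious f ∧ CompletelyDeterministic f hf.1 ∧
        ∀ μ : Measure X, IsFurstenberg f hf.1 μ ↔ μ = Measure.dirac zeroPt := by
    intro f hf hdiv
    have hmean := mean_zero (fun n => ‖f n‖) (fun n => norm_nonneg _) hf.1
      (fun m n hm hn hc => by simp only [hf.2.2 m n hm hn hc, norm_mul]) hdiv
    refine ⟨not_pretentious f hf.1 hdiv, ?_, fun μ => ⟨eq_dirac f hf.1 hmean μ, ?_⟩⟩
    · intro μ hμ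
      rw [eq_dirac f hf.1 hmean μ hμ]
      exact ksEntropy_dirac _
    · rintro rfl
      refine ⟨inferInstance, id, tendsto_id, fun g => ?_⟩
      rw [integral_dirac]
      exact avg_test f hf.1 hmean g
  refine ⟨main, ?_⟩
  let f : ℕ → ℂ := fun n => (1 / 2 : ℂ) ^ (ArithmeticFunction.cardFactors n)
  have hf : IsMultDisc f := by
    refine ⟨fun n => ?_, by simp [f], fun m n hm hn _ => ?_⟩
    · simp only [f, norm_pow]
      exact pow_le_one₀ (norm_nonneg _) (by norm_num)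
    · simp only [f]
      rw [ArithmeticFunction.cardFactors_mul hm.ne' hn.ne', pow_add]
  have hdiv : ¬ Summable fun p : Nat.Primes => (1 - ‖f p‖) / ((p : ℕ) : ℝ) := by
    intro hs
    have h1 : ∀ p : Nat.Primes, (1 - ‖f p‖) / ((p : ℕ) : ℝ) = 1 / 2 * (1 / ((p : ℕ) : ℝ)) := by
      intro p
      simp only [f]
      rw [ArithmeticFunction.cardFactors_apply_prime p.2]
      norm_num
      ring
    simp only [h1] at hs
    rw [summable_mul_left_iff (by norm_num)] at hs
    exact Nat.Primes.not_summable_one_div hs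
  obtain ⟨h1, h2, -⟩ := main f hf hdiv
  exact ⟨f, hf, fun n => pow_ne_zero _ (by norm_num), h1, h2⟩

end Pool.Agent.Results.MP_e30989_nt.NullModulus
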